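import Pool.Agent.W2helper68.DL.Stm

/-!
# Job D of the D0L project (MP_52de8b_co): defect lemma, bounded delay, overhangs
-/

set_option autoImplicit false

namespace Pool.Agent.W2helper78.DL

open Pool.Agent.W2helper68.DL

section Words

variable {B : Type}

/-- Words that are concatenations of elements of `X`. -/
inductive Star (X : Set (List B)) : List B → Prop
  | nil : Star X []
  | cons (a w : List B) : a ∈ X → Star X w → Star X (a ++ w)

theorem Star.append {X : Set (List B)} {u v : List B} (hu : Star X u) (hv : Star X v) :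
    Star X (u ++ v) := by
  induction hu with
  | nil => simpa
  | cons a w ha _ ih => rw [List.append_assoc]; exact Star.cons a _ ha ih

theorem Star.of_mem {X : Set (List B)} {a : List B} (h : a ∈ X) : Star X a := by
  simpa using Star.cons a [] h Star.nil

theorem Star.bind {X Y : Set (List B)} (h : ∀ a ∈ X, Star Y a) {w : List B} (hw : Star X w) :
    Star Y w := by
  induction hw with
  | nil => exact Star.nil
  | cons a w ha _ ih => exact (h a ha).append ih

theorem Star.exists_cons {X : Set (List B)} {w : List B} (hw : Star X w) (hne : w ≠ []) :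
    ∃ a v, a ∈ X ∧ Star X v ∧ w = a ++ v := by
  cases hw with
  | nil => exact absurd rfl hne
  | cons a v ha hv => exact ⟨a, v, ha, hv, rfl⟩

/-- Edges: the two words can be continued to words with the same prefix of length `N`. -/
def Edge (X : Set (List B)) (N : ℕ) (a b : List B) : Prop :=
  a ∈ X ∧ b ∈ X ∧ ∃ u v, Star X u ∧ Star X v ∧ N ≤ (a ++ u).length ∧ N ≤ (b ++ v).length ∧
    (a ++ u).take N = (b ++ v).take N

theorem Edge.symm {X : Set (List B)} {N : ℕ} {a b : List B} (h : Edge X N a b) : Edge X N b a := by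
  obtain ⟨ha, hb, u, v, hu, hv, h1, h2, h3⟩ := h
  exact ⟨hb, ha, v, u, hv, hu, h2, h1, h3.symm⟩

theorem take_eq_of_le {u v : List B} {N M : ℕ} (h : u.take N = v.take N) (hM : M ≤ N) :
    u.take M = v.take M := by
  have := congrArg (List.take M) h
  rwa [List.take_take, List.take_take, min_eq_left hM] at this

theorem graph_lemma [DecidableEq B] : ∀ (n : ℕ) (X R : Finset (List B)) (N : ℕ),
    ∑ w ∈ X, w.length ≤ n → (∀ w ∈ X, w ≠ []) → (n + 1) ^ 2 ≤ N →
    (∀ a ∈ X, ∃ r ∈ R, Relation.EqvGen (Edge (X : Set (List B)) N) a r) →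
    ∃ Y : Finset (List B), Y.card ≤ R.card ∧ ∀ a ∈ X, Star (Y : Set (List B)) a := by
  intro n
  induction n using Nat.strong_induction_on with
  | _ n IH =>
  intro X R N hS hne hN hR
  by_cases hE : ∃ x y, x ≠ y ∧ Edge (X : Set (List B)) N x y
  swap
  · push Not at hE
    refine ⟨R, le_rfl, fun a ha => ?_⟩
    obtain ⟨r, hr, h⟩ := hR a ha
    have : a = r := by
      clear hr ha
      induction h with
      | rel x y h => by_contra hne'; exact hE x y hne' h
      | refl x => rfl
      | symm x y _ ih => exact ih.symm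
      | trans x y z _ _ ih1 ih2 => exact ih1.trans ih2
    subst this
    exact Star.of_mem (by simpa using hr)
  obtain ⟨x, y, hxy, hE0, hlen⟩ :
      ∃ x y, x ≠ y ∧ Edge (X : Set (List B)) N x y ∧ x.length ≤ y.length := by
    obtain ⟨x, y, hxy, h⟩ := hE
    rcases le_total x.length y.length with hl | hl
    · exact ⟨x, y, hxy, h, hl⟩
    · exact ⟨y, x, hxy.symm, h.symm, hl⟩
  obtain ⟨hx, hy, p, q, hp, hq, hpl, hql, hpq⟩ := hE0
  have hx' : x ∈ X := by simpa using hx
  have hy' : y ∈ X := by simpa using hy
  have hyS : y.length ≤ n :=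
    le_trans (Finset.single_le_sum (f := fun w : List B => w.length)
      (fun _ _ => Nat.zero_le _) hy') hS
  have hyN : y.length < N := by nlinarith
  have hpre : x <+: y := by
    have h2 : (x ++ p).take x.length = (y ++ q).take x.length :=
      take_eq_of_le hpq (hlen.trans hyN.le)
    rw [List.take_append_of_le_length hlen] at h2
    simp only [List.take_left'] at h2
    rw [h2]; exact List.take_prefix _ _
  obtain ⟨w, hw⟩ := hpre
  have hwne : w ≠ [] := by
    rintro rfl; simp at hw; exact hxy hw
  have hxne : x ≠ [] := hne x hx'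
  have hxpos : 0 < x.length := List.length_pos_iff.2 hxne
  have hylen : y.length = x.length + w.length := by rw [← hw]; simp
  set X₁ : Finset (List B) := insert w (X.erase y) with hX₁
  have hxX₁ : x ∈ X₁ := by simp [hX₁, hxy, hx']
  have hwX₁ : w ∈ X₁ := by simp [hX₁]
  have hS₁ : ∑ v ∈ X₁, v.length ≤ n - x.length := by
    have h1 : ∑ v ∈ X.erase y, v.length + y.length = ∑ v ∈ X, v.length :=
      Finset.sum_erase_add _ _ hy'
    have h2 : ∑ v ∈ X₁, v.length ≤ w.length + ∑ v ∈ X.erase y, v.length := by
      by_cases hwX : w ∈ X.erase y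
      · rw [hX₁, Finset.insert_eq_of_mem hwX]; omega
      · rw [hX₁, Finset.sum_insert hwX]
    omega
  have hN₁ : (n - x.length + 1) ^ 2 ≤ N - x.length := by
    obtain ⟨m, hm⟩ : ∃ m, n = x.length + m := ⟨n - x.length, by omega⟩
    have : n - x.length = m := by omega
    rw [this]
    have h3 : (m + 1) ^ 2 + x.length ≤ N := by
      subst hm
      nlinarith
    omega
  have hne₁ : ∀ v ∈ X₁, v ≠ [] := by
    intro v hv
    rcases Finset.mem_insert.1 hv with rfl | hv
    · exact hwne
    · exact hne v (Finset.mem_of_mem_erase hv)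
  have hXstar : ∀ a ∈ (X : Set (List B)), Star (X₁ : Set (List B)) a := by
    intro a ha
    by_cases hay : a = y
    · subst hay
      rw [← hw]
      exact (Star.of_mem (by simpa using hxX₁)).append (Star.of_mem (by simpa using hwX₁))
    · exact Star.of_mem (by
        have ha' : a ∈ X := by simpa using ha
        simp [hX₁, hay, ha'])
  -- the head map
  set f : List B → List B := fun a => if a = y then x else a with hf
  have hfX : ∀ a ∈ (X : Set (List B)), f a ∈ (X₁ : Set (List B)) := by
    intro a ha
    have ha' : a ∈ X := by simpa using ha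
    by_cases hay : a = y
    · simp only [hf, hay, if_true]; simpa using hxX₁
    · simp only [hf, hay, if_false]
      simp [hX₁, hay, ha']
  have hfstar : ∀ a ∈ (X : Set (List B)), ∀ u, Star (X : Set (List B)) u →
      ∃ u', Star (X₁ : Set (List B)) u' ∧ a ++ u = f a ++ u' := by
    intro a ha u hu
    have hu' := Star.bind hXstar hu
    by_cases hay : a = y
    · refine ⟨w ++ u, (Star.of_mem (by simpa using hwX₁)).append hu', ?_⟩
      simp only [hf, hay, if_true]
      rw [← List.append_assoc, hw]
    · exact ⟨u, hu', by simp [hf, hay]⟩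
  have hfE : ∀ a b, Edge (X : Set (List B)) N a b →
      Edge (X₁ : Set (List B)) (N - x.length) (f a) (f b) := by
    rintro a b ⟨ha, hb, u, v, hu, hv, h1, h2, h3⟩
    obtain ⟨u', hu', hu''⟩ := hfstar a ha u hu
    obtain ⟨v', hv', hv''⟩ := hfstar b hb v hv
    rw [hu''] at h1 h3
    rw [hv''] at h2 h3
    exact ⟨hfX a ha, hfX b hb, u', v', hu', hv', by omega, by omega,
      take_eq_of_le h3 (by omega)⟩
  have hfG : ∀ a b, Relation.EqvGen (Edge (X : Set (List B)) N) a b →
      Relation.EqvGen (Edge (X₁ : Set (List B)) (N - x.length)) (f a) (f b) := by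
    intro a b h
    induction h with
    | rel x y h => exact Relation.EqvGen.rel _ _ (hfE _ _ h)
    | refl x => exact Relation.EqvGen.refl _
    | symm x y _ ih => exact Relation.EqvGen.symm _ _ ih
    | trans x y z _ _ ih1 ih2 => exact Relation.EqvGen.trans _ _ _ ih1 ih2
  -- the extra edge
  have hextra : ∃ b ∈ X, Edge (X₁ : Set (List B)) (N - x.length) w (f b) := by
    have hpne : p ≠ [] := by
      rintro rfl
      simp at hpl
      omega
    obtain ⟨b, p', hb, hp', rfl⟩ := hp.exists_cons hpne
    refine ⟨b, by simpa using hb, ?_⟩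
    obtain ⟨u', hu', hu''⟩ := hfstar b hb p' hp'
    have hq' := Star.bind hXstar hq
    refine Edge.symm ⟨hfX b hb, by simpa using hwX₁, u', q, hu', hq', ?_, ?_, ?_⟩
    · rw [← hu'']; simp only [List.length_append] at hpl ⊢; omega
    · simp only [List.length_append] at hql ⊢; omega
    · rw [← hu'']
      rw [← hw, List.append_assoc] at hpq
      have := congrArg (List.drop x.length) hpq
      rw [List.drop_take, List.drop_take] at this
      simpa using this
  obtain ⟨Y, hYc, hY⟩ := IH (n - x.length) (by omega) X₁ (R.image f) (N - x.length) hS₁ hne₁ hN₁ (by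
    intro a ha
    rcases Finset.mem_insert.1 ha with rfl | ha
    · obtain ⟨b, hb, hbE⟩ := hextra
      obtain ⟨r, hr, hbr⟩ := hR b hb
      exact ⟨f r, Finset.mem_image_of_mem f hr,
        Relation.EqvGen.trans _ _ _ (Relation.EqvGen.rel _ _ hbE) (hfG b r hbr)⟩
    · obtain ⟨r, hr, har⟩ := hR a (Finset.mem_of_mem_erase ha)
      have hfa : f a = a := by simp [hf, Finset.ne_of_mem_erase ha]
      refine ⟨f r, Finset.mem_image_of_mem f hr, ?_⟩
      have := hfG a r har
      rwa [hfa] at this)
  refine ⟨Y, hYc.trans Finset.card_image_le, fun a ha => ?_⟩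
  exact Star.bind (fun v hv => hY v (by simpa using hv)) (hXstar a (by simpa using ha))

end Words

section Factor

variable {A B : Type}

theorem star_decomp {Y : Finset (List B)} {w : List B} (h : Star (Y : Set (List B)) w) :
    ∃ l : List {v // v ∈ Y}, w = l.flatMap (fun v => v.1) := by
  induction h with
  | nil => exact ⟨[], rfl⟩
  | cons a w ha _ ih =>
    obtain ⟨l, rfl⟩ := ih
    exact ⟨⟨a, by simpa using ha⟩ :: l, by simp⟩

theorem factors_of_star {φ : A → List B} (Y : Finset (List B))
    (h : ∀ a, Star (Y : Set (List B)) (φ a)) : FactorsThrough φ Y.card := by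
  choose α hα using fun a => star_decomp (h a)
  exact ⟨{v // v ∈ Y}, inferInstance, α, fun v => v.1, by simp, hα⟩

variable [Fintype A] [DecidableEq B]

/-- The set of images of letters. -/
def im (φ : A → List B) : Finset (List B) := Finset.univ.image φ

theorem mem_im (φ : A → List B) (a : A) : φ a ∈ im φ := by simp [im]

theorem elementary_injective {φ : A → List B} (hφ : Elementary φ) : Function.Injective φ := by
  by_contra hinj
  have hlt : (im φ).card < Fintype.card A := by
    rcases lt_or_eq_of_le (Finset.card_image_le (s := Finset.univ) (f := φ)) with h | h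
    · simpa [im] using h
    · have h' := Finset.card_image_iff.1 h
      exact absurd (fun a b hab => h' (by simp) (by simp) hab) hinj
  exact hφ _ hlt (factors_of_star (im φ) (fun a => Star.of_mem (by simp [im])))

theorem im_card {φ : A → List B} (hφ : Elementary φ) : (im φ).card = Fintype.card A := by
  rw [im, Finset.card_image_of_injective _ (elementary_injective hφ)]; rfl

theorem sum_im_le (φ : A → List B) (hφ : Function.Injective φ) :
    ∑ w ∈ im φ, w.length = ∑ a, (φ a).length := by
  unfold im
  exact Finset.sum_image (fun a _ b _ h => hφ h)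

theorem no_conn {φ : A → List B} (hφ : Elementary φ) (X : Finset (List B))
    (him : im φ ⊆ X) (hXne : ∀ w ∈ X, w ≠ []) (n N : ℕ) (hS : ∑ w ∈ X, w.length ≤ n)
    (hN : (n + 1) ^ 2 ≤ N)
    (hX : ∀ w ∈ X, w ∈ im φ ∨ ∃ a, Relation.EqvGen (Edge (X : Set (List B)) N) w (φ a))
    (a b : A) (hab : a ≠ b) : ¬ Relation.EqvGen (Edge (X : Set (List B)) N) (φ a) (φ b) := by
  intro hconn
  have hinj := elementary_injective hφ
  have haR : φ a ∈ (im φ).erase (φ b) :=
    Finset.mem_erase.2 ⟨fun h => hab (hinj h), mem_im φ a⟩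
  obtain ⟨Y, hYc, hY⟩ := graph_lemma n X ((im φ).erase (φ b)) N hS hXne hN (by
    have key : ∀ c, ∃ r ∈ (im φ).erase (φ b),
        Relation.EqvGen (Edge (X : Set (List B)) N) (φ c) r := by
      intro c
      by_cases hcb : φ c = φ b
      · exact ⟨φ a, haR, by rw [hcb]; exact Relation.EqvGen.symm _ _ hconn⟩
      · exact ⟨φ c, Finset.mem_erase.2 ⟨hcb, mem_im φ c⟩, Relation.EqvGen.refl _⟩
    intro w hw
    rcases hX w hw with h | ⟨c, hc⟩
    · obtain ⟨c, _, rfl⟩ := Finset.mem_image.1 h
      exact key c
    · obtain ⟨r, hr, h⟩ := key c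
      exact ⟨r, hr, Relation.EqvGen.trans _ _ _ hc h⟩)
  have hcard : Y.card < Fintype.card A := by
    have h1 := Finset.card_erase_of_mem (mem_im φ b)
    have h2 := im_card hφ
    have h3 : 0 < (im φ).card := Finset.card_pos.2 ⟨_, mem_im φ b⟩
    omega
  exact hφ _ hcard (factors_of_star Y (fun c => hY _ (him (mem_im φ c))))

end Factor

section Sub

variable {A B : Type}

theorem long_word {φ : A → List B} (hne : ∀ a, φ a ≠ []) {y : ℤ → A} {x : ℤ → B} {c : ℤ → ℤ}
    (h : IsSub φ y x c) {X : Set (List B)} (hX : ∀ a, φ a ∈ X) (n : ℕ) : ∀ p : ℤ,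
    ∃ u, Star X u ∧ n ≤ u.length ∧ ∀ (t : ℕ) (ht : t < u.length), x (c p + t) = u[t] := by
  induction n with
  | zero => exact fun p => ⟨[], Star.nil, le_rfl, fun t ht => absurd ht (by simp)⟩
  | succ n ih =>
    intro p
    obtain ⟨u, hu, hlen, hval⟩ := ih (p + 1)
    have hpos : 0 < (φ (y p)).length := List.length_pos_iff.2 (hne _)
    refine ⟨φ (y p) ++ u, Star.cons _ _ (hX _) hu, by simp only [List.length_append]; omega, ?_⟩
    intro t ht
    by_cases htl : t < (φ (y p)).length
    · rw [List.getElem_append_left htl]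
      exact h.val p t htl
    · rw [List.getElem_append_right (by omega)]
      simp only [List.length_append] at ht
      rw [← hval (t - (φ (y p)).length) (by omega), h.step p]
      congr 1
      push_cast [Nat.sub_add_cancel, Int.ofNat_sub (not_lt.1 htl)]
      ring

theorem long_word' {φ : A → List B} (hne : ∀ a, φ a ≠ []) {y : ℤ → A} {x : ℤ → B} {c : ℤ → ℤ}
    (h : IsSub φ y x c) {X : Set (List B)} (hX : ∀ a, φ a ∈ X) (n : ℕ) (p : ℤ) :
    ∃ u, Star X u ∧ n ≤ (φ (y p) ++ u).length ∧
      ∀ (t : ℕ) (ht : t < (φ (y p) ++ u).length), x (c p + t) = (φ (y p) ++ u)[t] := by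
  obtain ⟨u, hu, hlen, hval⟩ := long_word hne h hX n (p + 1)
  refine ⟨u, hu, by simp only [List.length_append]; omega, ?_⟩
  intro t ht
  by_cases htl : t < (φ (y p)).length
  · rw [List.getElem_append_left htl]
    exact h.val p t htl
  · rw [List.getElem_append_right (by omega)]
    simp only [List.length_append] at ht
    rw [← hval (t - (φ (y p)).length) (by omega), h.step p]
    congr 1
    push_cast [Nat.sub_add_cancel, Int.ofNat_sub (not_lt.1 htl)]
    ring

theorem take_eq {x : ℤ → B} {i j : ℤ} {N : ℕ} {w w' : List B}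
    (hw : ∀ (t : ℕ) (ht : t < w.length), x (i + t) = w[t])
    (hw' : ∀ (t : ℕ) (ht : t < w'.length), x (j + t) = w'[t])
    (hl : N ≤ w.length) (hl' : N ≤ w'.length) (h : ∀ t : ℕ, t < N → x (i + t) = x (j + t)) :
    w.take N = w'.take N := by
  apply List.ext_getElem
  · simp only [List.length_take]; omega
  · intro t h1 h2
    simp only [List.length_take] at h1 h2
    rw [List.getElem_take, List.getElem_take, ← hw t (by omega), ← hw' t (by omega), h t (by omega)]

theorem decode_right [Fintype A] [DecidableEq B] {φ : A → List B} (hne : ∀ a, φ a ≠ [])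
    (hφ : Elementary φ) {K : ℕ} (hK : (∑ a, (φ a).length + 1) ^ 2 ≤ K)
    {y : ℤ → A} {x : ℤ → B} {c : ℤ → ℤ} (h : IsSub φ y x c) (p q : ℤ)
    (hpq : ∀ t : ℕ, t < K → x (c p + t) = x (c q + t)) : y p = y q := by
  by_contra hab
  have hX : ∀ a, φ a ∈ (im φ : Set (List B)) := fun a => by simp [im]
  obtain ⟨u, hu, hul, huv⟩ := long_word' hne h hX K p
  obtain ⟨v, hv, hvl, hvv⟩ := long_word' hne h hX K q
  refine no_conn hφ (im φ) (Finset.Subset.refl _) ?_ (∑ a, (φ a).length) K
    (le_of_eq (sum_im_le φ (elementary_injective hφ))) hK (fun w hw => Or.inl hw) (y p) (y q) hab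
    (Relation.EqvGen.rel _ _ ⟨hX _, hX _, u, v, hu, hv, hul, hvl, take_eq huv hvv hul hvl hpq⟩)
  intro w hw
  obtain ⟨a, _, rfl⟩ := Finset.mem_image.1 hw
  exact hne a

theorem elementary_reverse [Fintype A] {φ : A → List B} (hφ : Elementary φ) :
    Elementary (fun a => (φ a).reverse) := by
  rintro m hm ⟨C, hC, α, μ, hc, h⟩
  refine hφ m hm ⟨C, hC, fun a => (α a).reverse, fun z => (μ z).reverse, hc, fun a => ?_⟩
  have := congrArg List.reverse (h a)
  simp only [List.reverse_reverse] at this
  rw [this, List.reverse_flatMap]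
  rfl

theorem isSub_reverse {φ : A → List B} {y : ℤ → A} {x : ℤ → B} {c : ℤ → ℤ} (h : IsSub φ y x c) :
    IsSub (fun a => (φ a).reverse) (fun p => y (-1 - p)) (fun i => x (-1 - i))
      (fun p => - c (-p)) where
  step p := by
    have := h.step (-1 - p)
    have e1 : (-1 - p : ℤ) + 1 = -p := by ring
    have e2 : -(p + 1) = -1 - p := by ring
    rw [e1] at this
    simp only [e2, List.length_reverse]
    linarith
  val p t ht := by
    simp only [List.length_reverse] at ht
    rw [List.getElem_reverse, ← h.val]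
    have := h.step (-1 - p)
    have e1 : (-1 - p : ℤ) + 1 = -p := by ring
    rw [e1] at this
    congr 1
    have : (((φ (y (-1 - p))).length - 1 - t : ℕ) : ℤ) = ((φ (y (-1 - p))).length : ℤ) - 1 - t := by
      omega
    rw [this]
    linarith

theorem decode_left [Fintype A] [DecidableEq B] {φ : A → List B} (hne : ∀ a, φ a ≠ [])
    (hφ : Elementary φ) {K : ℕ} (hK : (∑ a, (φ a).length + 1) ^ 2 ≤ K)
    {y : ℤ → A} {x : ℤ → B} {c : ℤ → ℤ} (h : IsSub φ y x c) (p q : ℤ)
    (hpq : ∀ t : ℕ, t < K → x (c p - 1 - t) = x (c q - 1 - t)) : y (p - 1) = y (q - 1) := by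
  have h' := isSub_reverse h
  have key := decode_right (φ := fun a => (φ a).reverse) (fun a => by simpa using hne a)
    (elementary_reverse hφ) (K := K) (by simpa using hK) h' (-p) (-q) (by
      intro t ht
      have := hpq t ht
      simp only [neg_neg]
      convert this using 2 <;> ring)
  have e : ∀ r : ℤ, r - 1 = -1 - -r := by intro r; ring
  rw [e p, e q]
  exact key

theorem overhang [Fintype A] [DecidableEq B] {φ : A → List B} (hne : ∀ a, φ a ≠ [])
    (hφ : Elementary φ) {K H : ℕ} (hK : (∑ a, (φ a).length + H + 1) ^ 2 ≤ K)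
    {y : ℤ → A} {x : ℤ → B} {c : ℤ → ℤ} (h : IsSub φ y x c) (m : ℕ) (hm1 : 1 ≤ m) (hmH : m ≤ H)
    (p q p' q' : ℤ)
    (h1 : ∀ t : ℕ, t < K → x (c p + t) = x (c q - m + t))
    (h2 : ∀ t : ℕ, t < K → x (c p' + t) = x (c q' - m + t))
    (h3 : ∀ t : ℕ, t < m → x (c q - m + t) = x (c q' - m + t)) : y p = y p' := by
  by_contra hab
  set P : List B := List.ofFn (fun t : Fin m => x (c q - m + (t : ℕ))) with hP
  have hPl : P.length = m := by simp [hP]
  set X : Finset (List B) := insert P (im φ) with hX
  have hXφ : ∀ a, φ a ∈ (X : Set (List B)) := fun a => by simp [hX, im]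
  have hPX : P ∈ (X : Set (List B)) := by simp [hX]
  have edge : ∀ p₁ q₁ : ℤ, (∀ t : ℕ, t < K → x (c p₁ + t) = x (c q₁ - m + t)) →
      (∀ (t : ℕ) (ht : t < P.length), x (c q₁ - m + t) = P[t]) →
      Relation.EqvGen (Edge (X : Set (List B)) K) P (φ (y p₁)) := by
    intro p₁ q₁ hpq hPv
    obtain ⟨u, hu, hul, huv⟩ := long_word' hne h hXφ K p₁
    obtain ⟨v, hv, hvl, hvv⟩ := long_word hne h hXφ K q₁
    have hvl' : K ≤ (P ++ v).length := by simp only [List.length_append]; omega
    have hvv' : ∀ (t : ℕ) (ht : t < (P ++ v).length), x (c q₁ - m + t) = (P ++ v)[t] := by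
      intro t ht
      by_cases htl : t < P.length
      · rw [List.getElem_append_left htl]
        exact hPv t htl
      · rw [List.getElem_append_right (by omega)]
        simp only [List.length_append] at ht
        rw [← hvv (t - P.length) (by omega)]
        congr 1
        have : ((t - P.length : ℕ) : ℤ) = (t : ℤ) - m := by omega
        rw [this]
        ring
    refine Relation.EqvGen.symm _ _ (Relation.EqvGen.rel _ _
      ⟨hXφ _, hPX, u, v, hu, hv, hul, hvl', take_eq huv hvv' hul hvl' hpq⟩)
  have e1 := edge p q h1 (by intro t ht; simp [hP])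
  have e2 := edge p' q' h2 (by
    intro t ht
    rw [← h3 t (by omega)]
    simp [hP])
  refine no_conn hφ X (Finset.subset_insert _ _) ?_ (∑ a, (φ a).length + H) K ?_ hK ?_
    (y p) (y p') hab (Relation.EqvGen.trans _ _ _ (Relation.EqvGen.symm _ _ e1) e2)
  · intro w hw
    rcases Finset.mem_insert.1 hw with rfl | hw
    · intro h0
      rw [h0] at hPl
      simp at hPl
      omega
    · obtain ⟨a, _, rfl⟩ := Finset.mem_image.1 hw
      exact hne a
  · have := sum_im_le φ (elementary_injective hφ)
    by_cases hPi : P ∈ im φ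
    · rw [hX, Finset.insert_eq_of_mem hPi, this]; omega
    · rw [hX, Finset.sum_insert hPi, this]; omega
  · intro w hw
    rcases Finset.mem_insert.1 hw with rfl | hw
    · exact Or.inr ⟨y p, e1⟩
    · exact Or.inl hw

end Sub

theorem jobD : JobD := by
  intro A B _ _ _ _ φ hne hφ H
  refine ⟨(∑ a, (φ a).length + H + 1) ^ 2, fun y x c h => ⟨?_, ?_, ?_⟩⟩
  · intro p q hpq
    exact decode_right hne hφ (Nat.pow_le_pow_left (by omega) 2) h p q hpq
  · intro p q hpq
    exact decode_left hne hφ (Nat.pow_le_pow_left (by omega) 2) h p q hpq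
  · intro m hm1 hmH p q p' q' h1 h2 h3
    exact overhang hne hφ le_rfl h m hm1 hmH p q p' q' h1 h2 h3

end Pool.Agent.W2helper78.DL
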